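import Mathlib

/-!
# SF: functions modulo small functions; Taylor polynomials in one variable
-/

set_option autoImplicit false

namespace Pool.SF

open Finset Filter Topology Asymptotics

section Alg

variable {α : Type} {l : Filter α} {r : α → ℝ} {K : ℕ}

/-- bounded functions -/
def Bd (l : Filter α) (f : α → ℝ) : Prop := f =O[l] fun _ => (1 : ℝ)

/-- functions which are `O (r ^ K)` -/
def Id (l : Filter α) (r : α → ℝ) (K : ℕ) (f : α → ℝ) : Prop := f =O[l] fun z => r z ^ K

/-- congruence modulo `O (r ^ K)` -/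
def Cg (l : Filter α) (r : α → ℝ) (K : ℕ) (f g : α → ℝ) : Prop := Id l r K fun z => f z - g z

theorem Bd.const (c : ℝ) : Bd l fun _ => c := isBigO_const_const c one_ne_zero l

theorem Bd.add {f g : α → ℝ} (hf : Bd l f) (hg : Bd l g) : Bd l fun z => f z + g z :=
  IsBigO.add hf hg

theorem Bd.sub {f g : α → ℝ} (hf : Bd l f) (hg : Bd l g) : Bd l fun z => f z - g z :=
  IsBigO.sub hf hg

theorem Bd.mul {f g : α → ℝ} (hf : Bd l f) (hg : Bd l g) : Bd l fun z => f z * g z := by
  have := IsBigO.mul hf hg
  simpa [Bd] using this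

theorem Bd.pow {f : α → ℝ} (hf : Bd l f) (n : ℕ) : Bd l fun z => f z ^ n := by
  have := IsBigO.pow hf n
  simpa [Bd] using this

theorem Id.zero : Id l r K fun _ => 0 := isBigO_zero _ _

theorem Id.add {f g : α → ℝ} (hf : Id l r K f) (hg : Id l r K g) : Id l r K fun z => f z + g z :=
  IsBigO.add hf hg

theorem Id.sub {f g : α → ℝ} (hf : Id l r K f) (hg : Id l r K g) : Id l r K fun z => f z - g z :=
  IsBigO.sub hf hg

theorem Id.sum {ι : Type} {s : Finset ι} {f : ι → α → ℝ} (hf : ∀ i ∈ s, Id l r K (f i)) :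
    Id l r K fun z => ∑ i ∈ s, f i z := IsBigO.fun_sum hf

theorem Id.bd_mul {f g : α → ℝ} (hf : Bd l f) (hg : Id l r K g) : Id l r K fun z => f z * g z := by
  have := IsBigO.mul hf hg
  simpa [Id] using this

theorem Id.mul_bd {f g : α → ℝ} (hf : Id l r K f) (hg : Bd l g) : Id l r K fun z => f z * g z := by
  have := IsBigO.mul hf hg
  simpa [Id] using this

theorem Id.bd (hr : Bd l r) {f : α → ℝ} (hf : Id l r K f) : Bd l f := by
  have h1 : (fun z => r z ^ K) =O[l] fun _ => (1 : ℝ) := Bd.pow hr K
  exact IsBigO.trans hf h1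

theorem Cg.refl (f : α → ℝ) : Cg l r K f f := by
  unfold Cg
  simp only [sub_self]
  exact Id.zero

theorem Cg.symm {f g : α → ℝ} (h : Cg l r K f g) : Cg l r K g f := by
  have := Id.sub Id.zero h
  unfold Cg
  simpa using this

theorem Cg.trans {f g h : α → ℝ} (h1 : Cg l r K f g) (h2 : Cg l r K g h) : Cg l r K f h := by
  have := Id.add h1 h2
  unfold Cg
  simpa using this

theorem Cg.add {f g f' g' : α → ℝ} (h1 : Cg l r K f g) (h2 : Cg l r K f' g') :
    Cg l r K (fun z => f z + f' z) fun z => g z + g' z := by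
  have := Id.add h1 h2
  unfold Cg
  refine this.congr' (Eventually.of_forall fun z => ?_) (EventuallyEq.refl _ _)
  show f z - g z + (f' z - g' z) = _
  ring

theorem Cg.sum {ι : Type} {s : Finset ι} {f g : ι → α → ℝ} (h : ∀ i ∈ s, Cg l r K (f i) (g i)) :
    Cg l r K (fun z => ∑ i ∈ s, f i z) fun z => ∑ i ∈ s, g i z := by
  have := Id.sum h
  unfold Cg
  simpa only [Finset.sum_sub_distrib] using this

theorem Cg.mul {f g f' g' : α → ℝ} (h1 : Cg l r K f g) (h2 : Cg l r K f' g') (hf' : Bd l f')
    (hg : Bd l g) : Cg l r K (fun z => f z * f' z) fun z => g z * g' z := by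
  have := Id.add (Id.mul_bd h1 hf') (Id.bd_mul hg h2)
  unfold Cg
  refine this.congr' (Eventually.of_forall fun z => ?_) (EventuallyEq.refl _ _)
  show (f z - g z) * f' z + g z * (f' z - g' z) = _
  ring

theorem Cg.pow {f g : α → ℝ} (h1 : Cg l r K f g) (hf : Bd l f) (hg : Bd l g) (n : ℕ) :
    Cg l r K (fun z => f z ^ n) fun z => g z ^ n := by
  induction n with
  | zero =>
    simp only [pow_zero]
    exact Cg.refl _
  | succ n ih =>
    simp only [pow_succ]
    exact Cg.mul ih h1 hf (Bd.pow hg n)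

theorem Bd.congr (hr : Bd l r) {f g : α → ℝ} (h : Cg l r K f g) (hg : Bd l g) : Bd l f := by
  have := Bd.add (Id.bd hr h) hg
  refine this.congr' (Eventually.of_forall fun z => ?_) (EventuallyEq.refl _ _)
  show f z - g z + g z = f z
  ring

theorem Bd.poly {f : α → ℝ} (hf : Bd l f) (P : Polynomial ℝ) : Bd l fun z => P.eval (f z) := by
  induction P using Polynomial.induction_on' with
  | add p q hp hq =>
    simp only [Polynomial.eval_add]
    exact Bd.add hp hq
  | monomial n a =>
    simp only [Polynomial.eval_monomial]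
    exact Bd.mul (Bd.const a) (Bd.pow hf n)

theorem Cg.poly {f g : α → ℝ} (h : Cg l r K f g) (hf : Bd l f) (hg : Bd l g) (P : Polynomial ℝ) :
    Cg l r K (fun z => P.eval (f z)) fun z => P.eval (g z) := by
  induction P using Polynomial.induction_on' with
  | add p q hp hq =>
    simp only [Polynomial.eval_add]
    exact Cg.add hp hq
  | monomial n a =>
    simp only [Polynomial.eval_monomial]
    exact Cg.mul (Cg.refl _) (Cg.pow h hf hg n) (Bd.pow hf n) (Bd.const a)

/-- a polynomial without terms of degree less than `K` in a small function is small -/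
theorem Id.poly {N : α → ℝ} (hr : Bd l r) (hN : N =O[l] r) (P : Polynomial ℝ)
    (hP : ∀ i < K, P.coeff i = 0) : Id l r K fun z => P.eval (N z) := by
  obtain ⟨Q, rfl⟩ := (Polynomial.X_pow_dvd_iff).2 hP
  simp only [Polynomial.eval_mul, Polynomial.eval_pow, Polynomial.eval_X]
  have h1 : Id l r K fun z => N z ^ K := IsBigO.pow hN K
  have h2 : Bd l N := IsBigO.trans hN hr
  exact Id.mul_bd h1 (Bd.poly h2 Q)

end Alg

section Taylor

/-- Taylor polynomial of a function of one variable of class `C ^ K` -/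
theorem taylor_one {K : ℕ} {g : ℝ → ℝ} (hg : ContDiff ℝ K g) (c : ℝ) : ∃ Q : Polynomial ℝ,
    (fun u => g u - Q.eval (u - c)) =O[𝓝 c] fun u => (u - c) ^ K := by
  refine ⟨∑ k ∈ range (K + 1), Polynomial.C ((k.factorial : ℝ)⁻¹ *
    iteratedDerivWithin k g Set.univ c) * Polynomial.X ^ k, ?_⟩
  have h := (taylor_isLittleO_univ (x₀ := c) hg).isBigO
  refine h.congr' (Eventually.of_forall fun u => ?_) (EventuallyEq.refl _ _)
  show g u - taylorWithinEval g K Set.univ c u = _
  rw [taylor_within_apply]
  congr 1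
  rw [Polynomial.eval_finsetSum]
  refine sum_congr rfl fun k _ => ?_
  rw [Polynomial.eval_mul, Polynomial.eval_C, Polynomial.eval_pow, Polynomial.eval_X, smul_eq_mul]
  ring

/-- a function of class `C ^ K` of a function which is a polynomial in `N` modulo small functions
is a polynomial in `N` modulo small functions -/
theorem taylor_comp {α : Type} {l : Filter α} {r : α → ℝ} {K : ℕ} {g : ℝ → ℝ}
    (hg : ContDiff ℝ K g) {T N : α → ℝ} {c : ℝ} (hr : Bd l r) (hr0 : Tendsto r l (𝓝 0))
    (hT : (fun z => T z - c) =O[l] r) (hN : N =O[l] r) {P : Polynomial ℝ}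
    (hP : Cg l r K T fun z => P.eval (N z)) :
    ∃ Q : Polynomial ℝ, Cg l r K (fun z => g (T z)) fun z => Q.eval (N z) := by
  obtain ⟨Q, hQ⟩ := taylor_one hg c
  refine ⟨Q.comp (P - Polynomial.C c), ?_⟩
  have hT0 : Tendsto T l (𝓝 c) := by
    have h1 : Tendsto (fun z => T z - c) l (𝓝 0) := hT.trans_tendsto hr0
    have h2 := h1.add_const c
    simpa using h2
  have h1 : Cg l r K (fun z => g (T z)) fun z => Q.eval (T z - c) := by
    have h2 := hQ.comp_tendsto hT0
    have h3 : (fun z => (T z - c) ^ K) =O[l] fun z => r z ^ K := hT.pow K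
    exact IsBigO.trans h2 h3
  have hNb : Bd l N := IsBigO.trans hN hr
  have hPb : Bd l fun z => P.eval (N z) := Bd.poly hNb P
  have hTb : Bd l fun z => T z - c := IsBigO.trans hT hr
  have h2 : Cg l r K (fun z => T z - c) fun z => (P - Polynomial.C c).eval (N z) := by
    unfold Cg at hP ⊢
    refine hP.congr' (Eventually.of_forall fun z => ?_) (EventuallyEq.refl _ _)
    show T z - P.eval (N z) = T z - c - (P - Polynomial.C c).eval (N z)
    rw [Polynomial.eval_sub, Polynomial.eval_C]
    ring
  have h3 := Cg.poly h2 hTb (Bd.poly hNb _) Q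
  simp only [Polynomial.eval_comp]
  exact Cg.trans h1 h3

end Taylor

end Pool.SF
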