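import Pool.Agent.SF.Kill
import Pool.Agent.XN.Null

/-!
# SF: a program which is equal to the permanent on a set of positive measure has many leaves in
each block
-/

set_option autoImplicit false
set_option linter.unusedSectionVars false

namespace Pool.SF

open Finset Filter Topology Asymptotics MeasureTheory Pool.XN

variable {V : Type} [Fintype V] [DecidableEq V]

/-- at almost every point of the set where two smooth functions are equal, the difference of
their derivatives is small -/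
theorem ae_del {m K : ℕ} (hm : K + 1 ≤ m) {f g : (V → ℝ) → ℝ} (hf : ContDiff ℝ m f)
    (hg : ContDiff ℝ m g) : ∀ᵐ z0 : V → ℝ, f z0 = g z0 → ∀ e : V → ℝ,
      (fun z => fderiv ℝ f z e - fderiv ℝ g z e) =O[𝓝 z0] fun z => ‖z - z0‖ ^ K := by
  have hm0 : (m : WithTop ℕ∞) ≠ 0 := by
    intro h
    have : m = 0 := by exact_mod_cast h
    omega
  have hu : ContDiff ℝ ((K : ℕ) + 1 : WithTop ℕ∞) fun z => f z - g z :=
    (hf.sub hg).of_le (by exact_mod_cast hm)
  have hd : Differentiable ℝ fun z => f z - g z := hu.differentiable (by simp)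
  have hdf : ContDiff ℝ K (fderiv ℝ fun z => f z - g z) := hu.fderiv_right le_rfl
  have hA : MeasurableSet {z | f z - g z = 0} :=
    (isClosed_eq hu.continuous continuous_const).measurableSet
  have h1 := ae_fderiv_eq_zero (volume : Measure (V → ℝ)) hd hA fun x hx => hx
  have hA' : MeasurableSet {z | fderiv ℝ (fun z => f z - g z) z = 0} :=
    (isClosed_eq hdf.continuous continuous_const).measurableSet
  have h2 := ae_isBigO (volume : Measure (V → ℝ)) K hdf hA' fun x hx => hx
  rw [ae_restrict_iff' hA] at h1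
  rw [ae_restrict_iff' hA'] at h2
  filter_upwards [h1, h2] with z0 hz1 hz2 hz e
  have h3 := hz2 (hz1 (sub_eq_zero.2 hz))
  have h4 : (fun z => fderiv ℝ f z e - fderiv ℝ g z e) =O[𝓝 z0]
      fderiv ℝ fun z => f z - g z := by
    refine IsBigO.of_bound ‖e‖ (Eventually.of_forall fun z => ?_)
    have h5 : fderiv ℝ (fun z => f z - g z) z = fderiv ℝ f z - fderiv ℝ g z :=
      fderiv_fun_sub (hf.differentiable hm0 z) (hg.differentiable hm0 z)
    rw [h5, mul_comm]
    exact ContinuousLinearMap.le_opNorm (fderiv ℝ f z - fderiv ℝ g z) e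
  exact h4.trans h3

/-- **the number of leaves in a block**, if the derivatives of `g` in the directions `p i` are
linearly independent modulo small functions at almost every point -/
theorem block_of {m w k : ℕ} (hm : k + 2 ≤ m) {fs : List ((V → ℝ) → ℝ)} {a : V → ℕ} {u : ℕ}
    (h : IsProg m w fs a u) {f g : (V → ℝ) → ℝ} (hf : f ∈ fs) (hg : ContDiff ℝ m g)
    (hpos : volume {z | f z = g z} ≠ 0) (B : Finset V) {ι : Type} [Fintype ι] [DecidableEq ι]
    (p : ι → V)
    (hgen : ∀ᵐ z0 : V → ℝ, ∀ η : ι → ℝ,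
      ((fun z => fderiv ℝ g z (∑ i, η i • Pi.single (p i) 1))
        =O[𝓝[Sl B z0] z0] fun z => ‖z - z0‖ ^ (k + 1)) → η = 0) :
    Fintype.card ι ≤ (∑ v ∈ B, a v + u) * (2 * (k + 1) + w) + fs.length := by
  by_contra hlt
  push Not at hlt
  let L : (ι → ℝ) →ₗ[ℝ] (V → ℝ) :=
    ∑ i, (LinearMap.proj i : (ι → ℝ) →ₗ[ℝ] ℝ).smulRight (Pi.single (p i) (1 : ℝ) : V → ℝ)
  have hL : ∀ η, L η = ∑ i, η i • Pi.single (p i) 1 := by
    intro η
    simp [L]
  have hcd : ContDiff ℝ m f := by
    obtain ⟨U, -, h1⟩ := prog_kill hm L B 0 h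
    exact (h1 f hf).1
  have h3 : ∃ z0, f z0 = g z0 ∧ (f z0 = g z0 → ∀ e : V → ℝ,
      (fun z => fderiv ℝ f z e - fderiv ℝ g z e) =O[𝓝 z0] fun z => ‖z - z0‖ ^ (k + 1)) ∧
      ∀ η : ι → ℝ, ((fun z => fderiv ℝ g z (∑ i, η i • Pi.single (p i) 1))
        =O[𝓝[Sl B z0] z0] fun z => ‖z - z0‖ ^ (k + 1)) → η = 0 := by
    by_contra hcon
    apply hpos
    rw [measure_eq_zero_iff_ae_notMem]
    filter_upwards [ae_del (K := k + 1) (by omega) hcd hg, hgen] with z hz1 hz2 hz
    exact hcon ⟨z, hz, hz1, hz2⟩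
  obtain ⟨z0, hz0, hO, hgz⟩ := h3
  obtain ⟨U, hU, hk⟩ := prog_kill hm L B z0 h
  rw [Module.finrank_fintype_fun_eq_card] at hU
  have hU0 : 0 < Module.finrank ℝ U := by omega
  have hne : U ≠ ⊥ := by
    intro h0
    rw [h0, finrank_bot] at hU0
    exact lt_irrefl _ hU0
  obtain ⟨η, hηU, hη0⟩ := (Submodule.ne_bot_iff _).1 hne
  apply hη0
  apply hgz
  rw [← hL]
  have h4 := (hk f hf).2 η hηU
  have h5 := (hO hz0 (L η)).mono (nhdsWithin_le_nhds (s := Sl B z0))
  refine (h4.sub h5).congr' (Eventually.of_forall fun z => ?_) (EventuallyEq.refl _ _)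
  show fderiv ℝ f z (L η) - (fderiv ℝ f z (L η) - fderiv ℝ g z (L η)) = fderiv ℝ g z (L η)
  ring

end Pool.SF
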