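import Mathlib

/-!
# SF: formulas and programs with smooth gates, at the level of functions
-/

set_option autoImplicit false

namespace Pool.SF

open Finset Filter Topology Asymptotics

variable {V : Type} [Fintype V] [DecidableEq V]

/-- `IsForm m w Old f a u`: the function `f` is computed by a formula whose gates are functions of
class `C ^ m` of `w` inputs; `a v` leaves are the variable `v`, and `u` leaves are functions in
`Old`. -/
inductive IsForm (m w : ℕ) (Old : ((V → ℝ) → ℝ) → Prop) :
    ((V → ℝ) → ℝ) → (V → ℕ) → ℕ → Prop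
  | const (c : ℝ) : IsForm m w Old (fun _ => c) 0 0
  | var (v : V) : IsForm m w Old (fun z => z v) (Pi.single v 1) 0
  | old (f : (V → ℝ) → ℝ) (hf : Old f) : IsForm m w Old f 0 1
  | gate (φ : (Fin w → ℝ) → ℝ) (hφ : ContDiff ℝ m φ) (T : Fin w → (V → ℝ) → ℝ)
      (a : Fin w → V → ℕ) (u : Fin w → ℕ) (h : ∀ i, IsForm m w Old (T i) (a i) (u i)) :
      IsForm m w Old (fun z => φ fun i => T i z) (∑ i, a i) (∑ i, u i)

/-- smooth functions of the functions of a list -/
def Old (m : ℕ) (fs : List ((V → ℝ) → ℝ)) (g : (V → ℝ) → ℝ) : Prop :=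
  ∃ G : (Fin fs.length → ℝ) → ℝ, ContDiff ℝ m G ∧ g = fun z => G fun i => fs.get i z

/-- `IsProg m w fs a u`: the functions of the list `fs` (the last one first) are computed by
formulas with gates of class `C ^ m`, where functions of class `C ^ m` of all earlier results are
allowed as leaves; `a v` leaves are the variable `v`, `u` leaves are functions of earlier results. -/
inductive IsProg (m w : ℕ) : List ((V → ℝ) → ℝ) → (V → ℕ) → ℕ → Prop
  | nil : IsProg m w [] 0 0
  | cons {fs : List ((V → ℝ) → ℝ)} {a : V → ℕ} {u : ℕ} {f : (V → ℝ) → ℝ} {b : V → ℕ} {c : ℕ}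
      (h : IsProg m w fs a u) (hf : IsForm m w (Old m fs) f b c) :
      IsProg m w (f :: fs) (a + b) (u + c)

/-- the points which differ from `z0` only in the block `B` -/
def Sl (B : Finset V) (z0 : V → ℝ) : Set (V → ℝ) := {z | ∀ v ∉ B, z v = z0 v}

end Pool.SF
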