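import Pool.Agent.SF.Good

/-!
# SF: gates with one live input, and gates with at least two live inputs
-/

set_option autoImplicit false
set_option linter.unusedSectionVars false

namespace Pool.SF

open Finset Filter Topology Asymptotics

variable {V : Type} [Fintype V] [DecidableEq V] {W : Type} [AddCommGroup W] [Module ℝ W]
  [FiniteDimensional ℝ W]

section Basics

theorem bd_norm (B : Finset V) (z0 : V → ℝ) : Bd (𝓝[Sl B z0] z0) fun z => ‖z - z0‖ := by
  have h : Continuous fun z : V → ℝ => ‖z - z0‖ := by fun_prop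
  have h1 := (h.continuousAt (x := z0)).isBigO_one ℝ
  exact h1.mono nhdsWithin_le_nhds

theorem tendsto_norm (B : Finset V) (z0 : V → ℝ) :
    Tendsto (fun z => ‖z - z0‖) (𝓝[Sl B z0] z0) (𝓝 0) := by
  have h : Continuous fun z : V → ℝ => ‖z - z0‖ := by fun_prop
  have h1 := (h.continuousAt (x := z0)).tendsto
  simp only [sub_self, norm_zero] at h1
  exact h1.mono_left nhdsWithin_le_nhds

theorem bd_cont {B : Finset V} {z0 : V → ℝ} {f : (V → ℝ) → ℝ} (hf : Continuous f) :
    Bd (𝓝[Sl B z0] z0) f :=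
  ((hf.continuousAt (x := z0)).isBigO_one ℝ).mono nhdsWithin_le_nhds

theorem small_sub {B : Finset V} {z0 : V → ℝ} {f : (V → ℝ) → ℝ} (hf : Differentiable ℝ f) :
    (fun z => f z - f z0) =O[𝓝[Sl B z0] z0] fun z => ‖z - z0‖ := by
  have h1 := ((hf z0).hasFDerivAt.isBigO_sub).norm_right
  exact h1.mono nhdsWithin_le_nhds

/-- partial derivatives of a function of class `C ^ (K + 1)` are of class `C ^ K` -/
theorem contDiff_partial {w m K : ℕ} (hm : K + 1 ≤ m) {φ : (Fin w → ℝ) → ℝ}
    (hφ : ContDiff ℝ m φ) (i : Fin w) :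
    ContDiff ℝ K fun u => fderiv ℝ φ u (Pi.single i 1) := by
  have h1 : ContDiff ℝ ((K : ℕ) + 1 : WithTop ℕ∞) φ := hφ.of_le (by exact_mod_cast hm)
  exact (h1.fderiv_right le_rfl).clm_apply contDiff_const

end Basics

section One

/-- a smooth function of several functions of which only one is not constant -/
theorem taylor_gate {w K : ℕ} {B : Finset V} {z0 : V → ℝ} {T : Fin w → (V → ℝ) → ℝ}
    {i0 : Fin w} (hT : Differentiable ℝ (T i0))
    (hc : ∀ i, i ≠ i0 → ∀ z ∈ Sl B z0, T i z = T i z0)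
    {N : (V → ℝ) → ℝ} {P : Polynomial ℝ} (hN : N =O[𝓝[Sl B z0] z0] fun z => ‖z - z0‖)
    (hP : Cg (𝓝[Sl B z0] z0) (fun z => ‖z - z0‖) K (T i0) fun z => P.eval (N z))
    {ψ : (Fin w → ℝ) → ℝ} (hψ : ContDiff ℝ K ψ) :
    ∃ Q : Polynomial ℝ, Cg (𝓝[Sl B z0] z0) (fun z => ‖z - z0‖) K
      (fun z => ψ fun i => T i z) fun z => Q.eval (N z) := by
  have hg : ContDiff ℝ K fun u : ℝ => ψ (Function.update (fun i => T i z0) i0 u) :=
    hψ.comp (contDiff_update (K : WithTop ℕ∞) (fun i => T i z0) i0)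
  obtain ⟨Q, hQ⟩ := taylor_comp hg (bd_norm B z0) (tendsto_norm B z0) (small_sub hT) hN hP
  refine ⟨Q, ?_⟩
  unfold Cg Id at hQ ⊢
  refine hQ.congr' ?_ (EventuallyEq.refl _ _)
  filter_upwards [self_mem_nhdsWithin] with z hz
  congr 2
  funext i
  by_cases hi : i = i0
  · subst hi
    rw [Function.update_self]
  · rw [Function.update_of_ne hi, hc i hi z hz]

/-- **a gate with one live input**: nothing changes -/
theorem good_one {w K m M : ℕ} (hm : K + 1 ≤ m) {L : W →ₗ[ℝ] (V → ℝ)} {B : Finset V}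
    {z0 : V → ℝ} {U0 : Submodule ℝ W} {T : Fin w → (V → ℝ) → ℝ} {i0 : Fin w}
    (hT : ∀ i, ContDiff ℝ m (T i)) (hinv : ∀ i, i ≠ i0 → Inv B (T i))
    (hg : Good L (𝓝[Sl B z0] z0) (fun z => ‖z - z0‖) K U0 (T i0) M)
    {φ : (Fin w → ℝ) → ℝ} (hφ : ContDiff ℝ m φ) :
    Good L (𝓝[Sl B z0] z0) (fun z => ‖z - z0‖) K U0 (fun z => φ fun i => T i z) M := by
  have hm1 : (1 : WithTop ℕ∞) ≤ (m : WithTop ℕ∞) := by
    have : 1 ≤ m := by omega
    exact_mod_cast this
  have hTd : ∀ i, Differentiable ℝ (T i) := fun i => (hT i).differentiable (by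
    intro h
    have : m = 0 := by exact_mod_cast h
    omega)
  have hφd : Differentiable ℝ φ := hφ.differentiable (by
    intro h
    have : m = 0 := by exact_mod_cast h
    omega)
  obtain ⟨N, h, D, U, μ, P, hN, hh, hU, hD, hP, hdel⟩ := hg
  have hc : ∀ i, i ≠ i0 → ∀ z ∈ Sl B z0, T i z = T i z0 := fun i hi z hz => hinv i hi z z0 hz
  have hφK : ContDiff ℝ K φ := hφ.of_le (by exact_mod_cast (by omega : K ≤ m))
  obtain ⟨Q, hQ⟩ := taylor_gate (hTd i0) hc hN hP hφK
  choose q hq using fun i => taylor_gate (hTd i0) hc hN hP (contDiff_partial hm hφ i)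
  have hNb : Bd (𝓝[Sl B z0] z0) N := IsBigO.trans hN (bd_norm B z0)
  have hTc : Continuous fun z => fun i => T i z := continuous_pi fun i => (hTd i).continuous
  refine ⟨N, fun z => (q i0).eval (N z) * h z, D, U,
    (LinearMap.mulLeft ℝ (q i0)).comp μ + ∑ i ∈ univ.erase i0, (delL L (T i) z0).smulRight (q i), Q,
    hN, Bd.mul (Bd.poly hNb _) hh, hU, hD, hQ, fun η h0 => ?_⟩
  -- the summands of the chain rule
  have e1 : del L (fun z => φ fun i => T i z) η = fun z =>
      ∑ i, fderiv ℝ φ (fun i => T i z) (Pi.single i 1) * del L (T i) η z :=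
    funext fun z => del_comp L hφd hTd η z
  rw [e1]
  have hdelb : Bd (𝓝[Sl B z0] z0) (del L (T i0) η) := by
    apply bd_cont
    exact ((hT i0).continuous_fderiv (by
      intro h
      have : m = 0 := by exact_mod_cast h
      omega)).clm_apply continuous_const
  have h2 : Cg (𝓝[Sl B z0] z0) (fun z => ‖z - z0‖) K
      (fun z => fderiv ℝ φ (fun i => T i z) (Pi.single i0 1) * del L (T i0) η z)
      fun z => (q i0).eval (N z) * (h z * D η z + (μ η).eval (N z)) :=
    Cg.mul (hq i0) (hdel η h0) hdelb (Bd.poly hNb _)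
  have h3 : ∀ i ∈ univ.erase i0, Cg (𝓝[Sl B z0] z0) (fun z => ‖z - z0‖) K
      (fun z => fderiv ℝ φ (fun i => T i z) (Pi.single i 1) * del L (T i) η z)
      fun z => (q i).eval (N z) * del L (T i) η z0 := by
    intro i hi
    have h4 : Cg (𝓝[Sl B z0] z0) (fun z => ‖z - z0‖) K (del L (T i) η)
        fun _ => del L (T i) η z0 := by
      have h5 : Id (𝓝[Sl B z0] z0) (fun z => ‖z - z0‖) K fun _ => 0 := Id.zero
      refine h5.congr' ?_ (EventuallyEq.refl _ _)
      filter_upwards [self_mem_nhdsWithin] with z hz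
      have h6 := (hinv i (Finset.ne_of_mem_erase hi)).fderiv_eq (z := z) (z' := z0) hz
      unfold del
      rw [h6, sub_self]
    exact Cg.mul (hq i) h4 (Bd.congr (bd_norm B z0) h4 (Bd.const _)) (Bd.poly hNb _)
  have h5 := Cg.add h2 (Cg.sum h3)
  refine h5.congr' (Eventually.of_forall fun z => ?_) (EventuallyEq.refl _ _)
  show fderiv ℝ φ (fun i => T i z) (Pi.single i0 1) * del L (T i0) η z +
    ∑ i ∈ univ.erase i0, fderiv ℝ φ (fun i => T i z) (Pi.single i 1) * del L (T i) η z -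
    ((q i0).eval (N z) * (h z * D η z + (μ η).eval (N z)) +
      ∑ i ∈ univ.erase i0, (q i).eval (N z) * del L (T i) η z0) =
    ∑ i, fderiv ℝ φ (fun i => T i z) (Pi.single i 1) * del L (T i) η z - _
  rw [Finset.add_sum_erase univ (fun i => fderiv ℝ φ (fun i => T i z) (Pi.single i 1) *
    del L (T i) η z) (mem_univ i0)]
  congr 1
  rw [LinearMap.add_apply, LinearMap.comp_apply, LinearMap.mulLeft_apply, LinearMap.sum_apply]
  beta_reduce
  rw [Polynomial.eval_add, Polynomial.eval_mul, Polynomial.eval_finsetSum]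
  have h6 : ∑ i ∈ univ.erase i0, (q i).eval (N z) * del L (T i) η z0 =
      ∑ i ∈ univ.erase i0, (((delL L (T i) z0).smulRight (q i)) η).eval (N z) := by
    refine sum_congr rfl fun i _ => ?_
    rw [LinearMap.smulRight_apply, Polynomial.eval_smul, delL_apply, smul_eq_mul, mul_comm]
  rw [h6]
  ring

end One

section Two

/-- functions which do not depend on the block -/
theorem Inv.kill (L : W →ₗ[ℝ] (V → ℝ)) {K : ℕ} {B : Finset V} {z0 : V → ℝ} {T : (V → ℝ) → ℝ}
    (hT : Inv B T) (U0 : Submodule ℝ W) : ∃ U : Submodule ℝ W, CodLe U 1 ∧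
      ∀ η ∈ U0, η ∈ U → Id (𝓝[Sl B z0] z0) (fun z => ‖z - z0‖) K (del L T η) := by
  refine ⟨LinearMap.ker (delL L T z0), (codLe_ker _).mono (by simp), fun η _ hη => ?_⟩
  have h1 : del L T η z0 = 0 := LinearMap.mem_ker.1 hη
  have h5 : Id (𝓝[Sl B z0] z0) (fun z => ‖z - z0‖) K fun _ => 0 := Id.zero
  refine h5.congr' ?_ (EventuallyEq.refl _ _)
  filter_upwards [self_mem_nhdsWithin] with z hz
  have h6 := hT.fderiv_eq (z := z) (z' := z0) hz
  unfold del at *
  rw [h6, h1]

/-- **a gate with several live inputs**: start again -/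
theorem good_many {w K m : ℕ} (hm : K + 1 ≤ m) {L : W →ₗ[ℝ] (V → ℝ)} {B : Finset V}
    {z0 : V → ℝ} {U0 : Submodule ℝ W} {T : Fin w → (V → ℝ) → ℝ} (hT : ∀ i, ContDiff ℝ m (T i))
    {M : Fin w → ℕ} (hkill : ∀ i, ∃ U : Submodule ℝ W, CodLe U (M i) ∧
      ∀ η ∈ U0, η ∈ U → Id (𝓝[Sl B z0] z0) (fun z => ‖z - z0‖) K (del L (T i) η))
    {φ : (Fin w → ℝ) → ℝ} (hφ : ContDiff ℝ m φ) :
    Good L (𝓝[Sl B z0] z0) (fun z => ‖z - z0‖) K U0 (fun z => φ fun i => T i z) (∑ i, M i) := by
  have hm0 : (m : WithTop ℕ∞) ≠ 0 := by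
    intro h
    have : m = 0 := by exact_mod_cast h
    omega
  have hTd : ∀ i, Differentiable ℝ (T i) := fun i => (hT i).differentiable hm0
  have hφd : Differentiable ℝ φ := hφ.differentiable hm0
  have hTc : Continuous fun z => fun i => T i z := continuous_pi fun i => (hTd i).continuous
  have hf : ContDiff ℝ m fun z => φ fun i => T i z := hφ.comp (contDiff_pi.2 hT)
  choose U hU hUk using hkill
  refine ⟨fun z => φ (fun i => T i z) - φ (fun i => T i z0), fun _ => 1,
    del L fun z => φ fun i => T i z, ⨅ i, U i, 0, Polynomial.X + Polynomial.C (φ fun i => T i z0),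
    small_sub (hf.differentiable hm0), Bd.const 1, CodLe.iInf hU, fun η h0 hη => ?_, ?_,
    fun η h0 => ?_⟩
  · have e1 : del L (fun z => φ fun i => T i z) η = fun z =>
        ∑ i, fderiv ℝ φ (fun i => T i z) (Pi.single i 1) * del L (T i) η z :=
      funext fun z => del_comp L hφd hTd η z
    rw [e1]
    refine Id.sum fun i _ => Id.bd_mul ?_ (hUk i η h0 ((Submodule.mem_iInf _).1 hη i))
    apply bd_cont
    have h1 : Continuous fun u => fderiv ℝ φ u (Pi.single i (1 : ℝ)) :=
      (hφ.continuous_fderiv hm0).clm_apply continuous_const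
    exact h1.comp hTc
  · have h1 := Cg.refl (l := 𝓝[Sl B z0] z0) (r := fun z => ‖z - z0‖) (K := K)
      fun z => φ fun i => T i z
    refine h1.congr' (Eventually.of_forall fun z => ?_) (EventuallyEq.refl _ _)
    simp only [Polynomial.eval_add, Polynomial.eval_X, Polynomial.eval_C]
    ring
  · have h1 := Cg.refl (l := 𝓝[Sl B z0] z0) (r := fun z => ‖z - z0‖) (K := K)
      (del L (fun z => φ fun i => T i z) η)
    refine h1.congr' (Eventually.of_forall fun z => ?_) (EventuallyEq.refl _ _)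
    simp only [LinearMap.zero_apply, Polynomial.eval_zero]
    ring

end Two

end Pool.SF
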