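import Pool.Agent.SF.Defs
import Pool.Agent.Helper29.FV.Gad
import Pool.Agent.XN.Null

/-!
# SF, row R3: generic points for a block of the permanent

At almost every point the derivatives of the permanent in the directions of the gadget are linearly
independent modulo the functions of the variables of the block which are `O(|x| ^ (2 s + 1))`.
-/

set_option autoImplicit false
set_option linter.unusedSectionVars false

namespace Pool.SF

open Finset MvPolynomial MeasureTheory Topology Filter Asymptotics
open Pool.Agent.Helper71.Fml Pool.Agent.Helper97.Form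

section generic

variable {V K ι : Type} [Field K] [DecidableEq V] [Fintype ι]

/-- functions which are linearly independent at one base point are linearly independent at all base
points outside a hypersurface -/
theorem exists_generic (D₀ : Finset V) (g : ι → MvPolynomial V K) (x : V → K)
    (hli : LinearIndependent K (fun i => fun b : V → K =>
      eval (fun v => if v ∈ D₀ then b v else x v) (g i))) :
    ∃ Q : MvPolynomial V K, Q ≠ 0 ∧ ∀ z : V → K, eval z Q ≠ 0 → ∀ η : ι → K,
      (∀ b : V → K, ∑ i, η i * eval (fun v => if v ∈ D₀ then b v else z v) (g i) = 0) →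
        η = 0 := by
  classical
  choose c hc using exists_comb _ hli
  let H : Matrix ι ι (MvPolynomial V K) :=
    Matrix.of fun k i => (c k).sum fun b a => C a * sub D₀ b (g i)
  have hH : ∀ (z : V → K) (k i : ι), eval z (H k i) =
      (c k).sum fun b a => a * eval (fun v => if v ∈ D₀ then b v else z v) (g i) := by
    intro z k i
    show eval z ((c k).sum fun b a => C a * sub D₀ b (g i)) = _
    rw [Finsupp.sum, map_sum]
    refine Finset.sum_congr rfl fun b _ => ?_
    rw [map_mul, eval_C, Pool.Agent.Helper97.Form.eval_sub]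
  refine ⟨H.det, ?_, ?_⟩
  · intro h0
    have h5 : (eval x).mapMatrix H = 1 := by
      ext k i
      rw [RingHom.mapMatrix_apply, Matrix.map_apply, hH, hc k i, Matrix.one_apply]
      simp only [eq_comm]
    have h6 := RingHom.map_det (eval x) H
    rw [h0, map_zero, h5, Matrix.det_one] at h6
    exact zero_ne_one h6
  · intro z hz η hη
    have h1 : ((eval z).mapMatrix H).det ≠ 0 := by
      rw [← RingHom.map_det]
      exact hz
    refine Matrix.eq_zero_of_mulVec_eq_zero h1 ?_
    funext k
    rw [Matrix.mulVec, dotProduct, Pi.zero_apply]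
    simp only [RingHom.mapMatrix_apply, Matrix.map_apply, hH]
    have h2 : ∀ i, ((c k).sum fun b a => a * eval (fun v => if v ∈ D₀ then b v else z v) (g i)) *
        η i = (c k).sum fun b a => a * (η i *
          eval (fun v => if v ∈ D₀ then b v else z v) (g i)) := by
      intro i
      rw [Finsupp.sum_mul]
      exact Finsupp.sum_congr fun b _ => by ring
    rw [Finset.sum_congr rfl fun i _ => h2 i, ← Finsupp.sum_finsetSum_comm]
    refine Finset.sum_eq_zero fun b _ => ?_
    beta_reduce
    rw [← Finset.mul_sum, hη b, mul_zero]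

end generic

section perm

variable {n : ℕ}

/-- the derivative of the permanent in the position `p`, as a polynomial in the variables of the
block -/
noncomputable def blkPoly (D₀ : Finset (Fin n × Fin n)) (z : Fin n × Fin n → ℝ)
    (p : Fin n × Fin n) : MvPolynomial (Fin n × Fin n) ℝ :=
  (Matrix.of fun r c : Fin n => if r = p.1 then (if c = p.2 then 1 else 0) else
    if (r, c) ∈ D₀ then X (r, c) else C (z (r, c))).permanent

theorem eval_blkPoly (D₀ : Finset (Fin n × Fin n)) (z : Fin n × Fin n → ℝ) (p : Fin n × Fin n)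
    (b : Fin n × Fin n → ℝ) : eval b (blkPoly D₀ z p) =
      eval (fun v => if v ∈ D₀ then b v else z v) (pderiv p (permPoly ℝ n)) := by
  obtain ⟨i, j⟩ := p
  rw [eval_pderiv_permPoly]
  unfold blkPoly
  rw [Pool.CDep.map_permanent']
  congr 1
  ext r c
  simp only [Matrix.map_apply, Matrix.of_apply]
  split_ifs <;> simp

theorem totalDegree_blkPoly (D₀ : Finset (Fin n × Fin n)) (z : Fin n × Fin n → ℝ)
    (p : Fin n × Fin n) : (blkPoly D₀ z p).totalDegree ≤ D₀.card := by
  classical
  unfold blkPoly Matrix.permanent
  refine (totalDegree_finsetSum _ _).trans (Finset.sup_le fun σ _ => ?_)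
  refine (totalDegree_finsetProd _ _).trans ?_
  have h1 : ∀ i : Fin n, ((Matrix.of fun r c : Fin n => if r = p.1 then
      (if c = p.2 then (1 : MvPolynomial (Fin n × Fin n) ℝ) else 0) else
        if (r, c) ∈ D₀ then X (r, c) else C (z (r, c))) (σ i) i).totalDegree ≤
      if (σ i, i) ∈ D₀ then 1 else 0 := by
    intro i
    simp only [Matrix.of_apply]
    split_ifs
    all_goals simp [totalDegree_X]
  refine (Finset.sum_le_sum fun i _ => h1 i).trans ?_
  rw [← Finset.card_filter]
  exact Finset.card_le_card_of_injOn (fun i => (σ i, i)) (fun i hi => (Finset.mem_filter.1 hi).2)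
    fun i _ j _ h => congrArg Prod.snd h

/-- **generic points for a block** -/
theorem generic (n s : ℕ) (hs : 12 * 2 ^ s ≤ n) (r c : Fin (2 * s) → Fin n)
    (hr : Function.Injective r) (hc : Function.Injective c) :
    ∃ p : {i : RC s // UU i ≠ ∅} → Fin n × Fin n, (∀ i, p i ∉ blk r c) ∧
      ∀ᵐ z : Fin n × Fin n → ℝ, ∀ η : {i : RC s // UU i ≠ ∅} → ℝ,
        (fun b : Fin n × Fin n → ℝ => ∑ i, η i *
          eval (fun v => if v ∈ blk r c then b v else z v) (pderiv (p i) (permPoly ℝ n)))
          =O[𝓝 z] (fun b => ‖b - z‖ ^ (2 * s + 1)) → η = 0 := by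
  classical
  obtain ⟨p, x, hp, hli⟩ := Pool.FV.gad n s hs (two_ne_zero : (2 : ℝ) ≠ 0) r c hr hc
  have hli' : LinearIndependent ℝ (fun i : {i : RC s // UU i ≠ ∅} =>
      fun b : Fin n × Fin n → ℝ =>
        eval (fun v => if v ∈ blk r c then b v else x v) (pderiv (p i) (permPoly ℝ n))) :=
    hli.comp some (Option.some_injective _)
  obtain ⟨Q, hQ0, hQ⟩ := exists_generic (blk r c) (fun i => pderiv (p i) (permPoly ℝ n)) x hli'
  refine ⟨p, hp, ?_⟩
  filter_upwards [Pool.XN.ae_eval_ne_zero Q hQ0] with z hz η hη
  refine hQ z hz η fun b => ?_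
  have hcard : (blk r c).card ≤ 2 * s := by
    unfold blk
    refine Finset.card_image_le.trans ?_
    rw [Finset.card_univ, Fintype.card_fin]
  set q : MvPolynomial (Fin n × Fin n) ℝ := ∑ i, C (η i) * blkPoly (blk r c) z (p i) with hq
  have heval : ∀ b : Fin n × Fin n → ℝ, eval b q = ∑ i, η i *
      eval (fun v => if v ∈ blk r c then b v else z v) (pderiv (p i) (permPoly ℝ n)) := by
    intro b
    rw [hq, map_sum]
    refine Finset.sum_congr rfl fun i _ => ?_
    rw [map_mul, eval_C, eval_blkPoly]
  have hdeg : q.totalDegree ≤ 2 * s := by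
    refine (totalDegree_finsetSum _ _).trans (Finset.sup_le fun i _ => ?_)
    refine (totalDegree_mul _ _).trans ?_
    rw [totalDegree_C, zero_add]
    exact (totalDegree_blkPoly _ _ _).trans hcard
  have h2 : aeval (fun v => X v + C (z v)) q = 0 := by
    ext u
    rw [coeff_zero]
    by_cases hu : u.degree ≤ 2 * s
    · refine Pool.XN.coeff_shift_eq_zero q z (2 * s) ?_ u hu
      refine hη.congr_left fun b => ?_
      rw [heval]
    · apply coeff_eq_zero_of_totalDegree_lt
      refine lt_of_le_of_lt (Pool.XD.totalDegree_aeval_le _ (fun v => ?_) q) ?_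
      · refine (totalDegree_add _ _).trans (max_le ?_ ?_)
        · rw [totalDegree_X]
        · rw [totalDegree_C]
          exact Nat.zero_le 1
      · push Not at hu
        exact lt_of_le_of_lt hdeg hu
  have h3 := Pool.XN.eval_shift z (b - z) q
  rw [sub_add_cancel, h2, map_zero] at h3
  rw [← heval, ← h3]

/-- the derivative of a polynomial function -/
theorem hasFDerivAt_eval {V : Type} [Fintype V] [DecidableEq V] (q : MvPolynomial V ℝ)
    (z : V → ℝ) : HasFDerivAt (fun x : V → ℝ => eval x q)
      (∑ v, eval z (pderiv v q) • (ContinuousLinearMap.proj v : (V → ℝ) →L[ℝ] ℝ)) z := by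
  induction q using MvPolynomial.induction_on with
  | C a =>
    simp only [eval_C, pderiv_C, map_zero, zero_smul, Finset.sum_const_zero]
    exact hasFDerivAt_const a z
  | add p q hp hq =>
    simp only [map_add, add_smul, Finset.sum_add_distrib]
    exact hp.add hq
  | mul_X p v hp =>
    have hv : HasFDerivAt (fun x : V → ℝ => x v)
        (ContinuousLinearMap.proj v : (V → ℝ) →L[ℝ] ℝ) z := hasFDerivAt_apply v z
    have h := hp.mul hv
    simp only [map_mul, eval_X]
    refine h.congr_fderiv ?_
    ext x
    simp only [add_apply, smul_apply,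
      _root_.sum_apply, ContinuousLinearMap.proj_apply, smul_eq_mul, pderiv_mul,
      map_add, map_mul, eval_X, pderiv_X, add_mul, Finset.sum_add_distrib, Finset.mul_sum]
    rw [add_comm]
    congr 1
    · exact Finset.sum_congr rfl fun i _ => by ring
    · rw [Finset.sum_eq_single v]
      · rw [Pi.single_eq_same, map_one, mul_one]
      · intro i _ hi
        rw [Pi.single_eq_of_ne (Ne.symm hi), map_zero, mul_zero, zero_mul]
      · intro h
        exact absurd (mem_univ _) h

theorem fderiv_permF (z : Fin n × Fin n → ℝ) (p : Fin n × Fin n) :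
    fderiv ℝ (Pool.XN.permF n) z (Pi.single p 1) = eval z (pderiv p (permPoly ℝ n)) := by
  classical
  have h1 : Pool.XN.permF n = fun x => eval x (permPoly ℝ n) := by
    funext x
    unfold permPoly Pool.XN.permF
    rw [Pool.CDep.map_permanent']
    congr 1
    ext i j
    simp
  rw [h1, (hasFDerivAt_eval (permPoly ℝ n) z).fderiv, _root_.sum_apply,
    Finset.sum_eq_single p]
  · rw [smul_apply, ContinuousLinearMap.proj_apply, Pi.single_eq_same,
      smul_eq_mul, mul_one]
  · intro v _ hv
    rw [smul_apply, ContinuousLinearMap.proj_apply, Pi.single_eq_of_ne hv,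
      smul_eq_mul, mul_zero]
  · intro h
    exact absurd (mem_univ _) h

/-- **R3: generic points for a block**, in terms of the derivative of the permanent -/
theorem perm_gen (n s : ℕ) (hs : 12 * 2 ^ s ≤ n) (r c : Fin (2 * s) → Fin n)
    (hr : Function.Injective r) (hc : Function.Injective c) :
    ∃ p : {i : RC s // UU i ≠ ∅} → Fin n × Fin n, ∀ᵐ z0 : Fin n × Fin n → ℝ,
      ∀ η : {i : RC s // UU i ≠ ∅} → ℝ,
        ((fun z => fderiv ℝ (Pool.XN.permF n) z (∑ i, η i • Pi.single (p i) 1))
          =O[𝓝[Sl (blk r c) z0] z0] fun z => ‖z - z0‖ ^ (2 * s + 1)) → η = 0 := by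
  classical
  obtain ⟨p, -, h⟩ := generic n s hs r c hr hc
  refine ⟨p, ?_⟩
  filter_upwards [h] with z0 hz0 η hη
  apply hz0 η
  set mix : (Fin n × Fin n → ℝ) → Fin n × Fin n → ℝ :=
    fun b v => if v ∈ blk r c then b v else z0 v with hmix
  have hmix0 : mix z0 = z0 := by
    funext v
    rw [hmix]
    simp
  have hcont : Continuous mix := by
    refine continuous_pi fun v => ?_
    by_cases hv : v ∈ blk r c
    · simp only [hmix, if_pos hv]
      exact continuous_apply v
    · simp only [hmix, if_neg hv]
      exact continuous_const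
  have htend : Tendsto mix (𝓝 z0) (𝓝[Sl (blk r c) z0] z0) := by
    refine tendsto_nhdsWithin_iff.2 ⟨?_, Filter.Eventually.of_forall fun b v hv => ?_⟩
    · have h1 := hcont.tendsto z0
      rwa [hmix0] at h1
    · simp only [hmix, if_neg hv]
  have h2 := hη.comp_tendsto htend
  have h3 : ∀ b, fderiv ℝ (Pool.XN.permF n) (mix b) (∑ i, η i • Pi.single (p i) 1) =
      ∑ i, η i * eval (mix b) (pderiv (p i) (permPoly ℝ n)) := by
    intro b
    rw [map_sum]
    refine Finset.sum_congr rfl fun i _ => ?_
    rw [map_smul, fderiv_permF, smul_eq_mul]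
  refine (h2.congr_left h3).trans (IsBigO.of_bound 1 (Filter.Eventually.of_forall fun b => ?_))
  rw [one_mul, Function.comp, norm_pow, norm_norm, norm_pow, norm_norm]
  refine pow_le_pow_left₀ (norm_nonneg _) ?_ _
  refine (pi_norm_le_iff_of_nonneg (norm_nonneg _)).2 fun v => ?_
  by_cases hv : v ∈ blk r c
  · simp only [hmix, Pi.sub_apply, if_pos hv]
    exact norm_le_pi_norm (b - z0) v
  · simp only [hmix, Pi.sub_apply, if_neg hv, sub_self, norm_zero]
    exact norm_nonneg _

end perm

end Pool.SF
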