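import Pool.Agent.SF.Alg
import Pool.Agent.SF.Defs

/-!
# SF: the derivative of a formula in a direction outside of a block is small on a subspace of small
codimension
-/

set_option autoImplicit false
set_option linter.unusedSectionVars false

namespace Pool.SF

open Finset Filter Topology Asymptotics

section Cod

variable {W : Type} [AddCommGroup W] [Module ℝ W] [FiniteDimensional ℝ W]

/-- the codimension of `U` is at most `M` -/
def CodLe (U : Submodule ℝ W) (M : ℕ) : Prop := Module.finrank ℝ W ≤ Module.finrank ℝ U + M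

theorem CodLe.mono {U : Submodule ℝ W} {M M' : ℕ} (h : CodLe U M) (hM : M ≤ M') : CodLe U M' :=
  le_trans h (Nat.add_le_add_left hM _)

theorem codLe_top : CodLe (⊤ : Submodule ℝ W) 0 := by
  unfold CodLe
  rw [finrank_top, add_zero]

theorem CodLe.inf {U U' : Submodule ℝ W} {M M' : ℕ} (h : CodLe U M) (h' : CodLe U' M') :
    CodLe (U ⊓ U') (M + M') := by
  unfold CodLe at *
  have h1 := Submodule.finrank_sup_add_finrank_inf_eq U U'
  have h2 := Submodule.finrank_le (U ⊔ U')
  omega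

theorem CodLe.iInf {ι : Type} [Fintype ι] {U : ι → Submodule ℝ W} {M : ι → ℕ}
    (h : ∀ i, CodLe (U i) (M i)) : CodLe (⨅ i, U i) (∑ i, M i) := by
  classical
  have h1 : ∀ s : Finset ι, CodLe (⨅ i ∈ s, U i) (∑ i ∈ s, M i) := by
    intro s
    induction s using Finset.induction_on with
    | empty =>
      simp only [Finset.notMem_empty, iInf_false, iInf_top, Finset.sum_empty]
      exact codLe_top
    | insert a s ha ih =>
      rw [Finset.iInf_insert, Finset.sum_insert ha]
      exact (h a).inf ih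
  have h2 := h1 Finset.univ
  simpa using h2

theorem codLe_ker {F : Type} [AddCommGroup F] [Module ℝ F] [FiniteDimensional ℝ F]
    (f : W →ₗ[ℝ] F) : CodLe (LinearMap.ker f) (Module.finrank ℝ F) := by
  unfold CodLe
  have h1 := LinearMap.finrank_range_add_finrank_ker f
  have h2 := Submodule.finrank_le (LinearMap.range f)
  omega

end Cod

section Del

variable {V : Type} [Fintype V] [DecidableEq V] {W : Type} [AddCommGroup W] [Module ℝ W]
  [FiniteDimensional ℝ W]

/-- the derivative of `f` in the direction `L η` -/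
noncomputable def del (L : W →ₗ[ℝ] (V → ℝ)) (f : (V → ℝ) → ℝ) (η : W) (z : V → ℝ) : ℝ :=
  fderiv ℝ f z (L η)

/-- `f` does not depend on the variables in `B` -/
def Inv (B : Finset V) (f : (V → ℝ) → ℝ) : Prop := ∀ z z', (∀ v ∉ B, z v = z' v) → f z = f z'

theorem Inv.fderiv_eq {B : Finset V} {f : (V → ℝ) → ℝ} (hf : Inv B f) {z z' : V → ℝ}
    (h : ∀ v ∉ B, z v = z' v) : fderiv ℝ f z = fderiv ℝ f z' := by
  have h1 : (fun x => f (x + (z' - z))) = f := by
    funext x
    apply hf
    intro v hv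
    rw [Pi.add_apply, Pi.sub_apply, h v hv, sub_self, add_zero]
  have h2 := fderiv_comp_add_right (𝕜 := ℝ) (f := f) (x := z) (z' - z)
  rw [h1] at h2
  rw [h2]
  congr 1
  abel

/-- the derivative in the direction `L η` at a point, as a linear map -/
noncomputable def delL (L : W →ₗ[ℝ] (V → ℝ)) (f : (V → ℝ) → ℝ) (z : V → ℝ) : W →ₗ[ℝ] ℝ :=
  (fderiv ℝ f z : (V → ℝ) →ₗ[ℝ] ℝ).comp L

theorem delL_apply (L : W →ₗ[ℝ] (V → ℝ)) (f : (V → ℝ) → ℝ) (z : V → ℝ) (η : W) :
    delL L f z η = del L f η z := rfl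

/-- the chain rule -/
theorem del_comp (L : W →ₗ[ℝ] (V → ℝ)) {w : ℕ} {φ : (Fin w → ℝ) → ℝ} (hφ : Differentiable ℝ φ)
    {T : Fin w → (V → ℝ) → ℝ} (hT : ∀ i, Differentiable ℝ (T i)) (η : W) (z : V → ℝ) :
    del L (fun z => φ fun i => T i z) η z =
      ∑ i, fderiv ℝ φ (fun i => T i z) (Pi.single i 1) * del L (T i) η z := by
  have h1 : HasFDerivAt (fun z => fun i => T i z) (ContinuousLinearMap.pi fun i =>
      fderiv ℝ (T i) z) z := hasFDerivAt_pi.2 fun i => (hT i z).hasFDerivAt
  have h2 : HasFDerivAt φ (fderiv ℝ φ fun i => T i z) ((fun z => fun i => T i z) z) :=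
    (hφ _).hasFDerivAt
  have h3 := (h2.comp z h1).fderiv
  unfold del
  show fderiv ℝ (φ ∘ fun z => fun i => T i z) z (L η) = _
  rw [h3, ContinuousLinearMap.comp_apply]
  have h4 : (ContinuousLinearMap.pi fun i => fderiv ℝ (T i) z) (L η) =
      ∑ i, (fderiv ℝ (T i) z (L η)) • (Pi.single i (1 : ℝ) : Fin w → ℝ) := by
    funext j
    rw [Finset.sum_apply, Finset.sum_eq_single j]
    · simp
    · intro b _ hb
      simp [hb.symm]
    · intro h
      exact absurd (mem_univ _) h
  rw [h4, map_sum]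
  refine sum_congr rfl fun i _ => ?_
  rw [map_smul, smul_eq_mul, mul_comm]

end Del

section Good

variable {V : Type} [Fintype V] [DecidableEq V] {W : Type} [AddCommGroup W] [Module ℝ W]
  [FiniteDimensional ℝ W]

/-- The value of a formula is a polynomial in one small function `N`, and its derivatives outside
of the block are combinations of one function `D η`, small on a subspace of codimension `M`, and
of polynomials in `N`, modulo small functions. -/
def Good (L : W →ₗ[ℝ] (V → ℝ)) (l : Filter (V → ℝ)) (r : (V → ℝ) → ℝ) (K : ℕ)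
    (U0 : Submodule ℝ W) (T : (V → ℝ) → ℝ) (M : ℕ) : Prop :=
  ∃ (N h : (V → ℝ) → ℝ) (D : W → (V → ℝ) → ℝ) (U : Submodule ℝ W) (μ : W →ₗ[ℝ] Polynomial ℝ)
    (P : Polynomial ℝ), N =O[l] r ∧ Bd l h ∧ CodLe U M ∧
      (∀ η ∈ U0, η ∈ U → Id l r K (D η)) ∧ Cg l r K T (fun z => P.eval (N z)) ∧
      ∀ η ∈ U0, Cg l r K (del L T η) fun z => h z * D η z + (μ η).eval (N z)

/-- the first coefficients of a polynomial -/
noncomputable def trunc (K : ℕ) : Polynomial ℝ →ₗ[ℝ] (Fin K → ℝ) :=
  LinearMap.pi fun i => Polynomial.lcoeff ℝ i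

theorem trunc_apply (K : ℕ) (P : Polynomial ℝ) (i : Fin K) : trunc K P i = P.coeff i := rfl

variable {L : W →ₗ[ℝ] (V → ℝ)} {l : Filter (V → ℝ)} {r : (V → ℝ) → ℝ} {K : ℕ}
  {U0 : Submodule ℝ W}

theorem Good.kill (hr : Bd l r) {T : (V → ℝ) → ℝ} {M : ℕ} (hT : Good L l r K U0 T M) :
    ∃ U : Submodule ℝ W, CodLe U (M + K) ∧ ∀ η ∈ U0, η ∈ U → Id l r K (del L T η) := by
  obtain ⟨N, h, D, U, μ, P, hN, hh, hU, hD, hP, hdel⟩ := hT
  refine ⟨U ⊓ LinearMap.ker ((trunc K).comp μ), hU.inf ((codLe_ker _).mono ?_), fun η h0 hη => ?_⟩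
  · rw [Module.finrank_fintype_fun_eq_card, Fintype.card_fin]
  · obtain ⟨h1, h2⟩ := Submodule.mem_inf.1 hη
    have h3 : ∀ i < K, (μ η).coeff i = 0 := by
      intro i hi
      have := congrFun (LinearMap.mem_ker.1 h2) ⟨i, hi⟩
      rwa [LinearMap.comp_apply, trunc_apply] at this
    have h4 := Id.add (Id.bd_mul hh (hD η h0 h1)) (Id.poly hr hN _ h3)
    have h5 := Id.add (hdel η h0) h4
    refine h5.congr' (Eventually.of_forall fun z => ?_) (EventuallyEq.refl _ _)
    show del L T η z - (h z * D η z + (μ η).eval (N z)) + (h z * D η z + (μ η).eval (N z)) = _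
    ring

end Good

end Pool.SF
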