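import Pool.Agent.SF.Gate

/-!
# SF: the induction over formulas and programs
-/

set_option autoImplicit false
set_option linter.unusedSectionVars false

namespace Pool.SF

open Finset Filter Topology Asymptotics

variable {V : Type} [Fintype V] [DecidableEq V] {W : Type} [AddCommGroup W] [Module ℝ W]
  [FiniteDimensional ℝ W]

theorem num_gate {w A K : ℕ} (hA : A = 2 * K + w) (c M M' : Fin w → ℕ)
    (h0 : ∀ i, c i = 0 → M' i = 1) (h1 : ∀ i, 1 ≤ c i → M' i = M i + K ∧ M i + A ≤ c i * A)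
    {i j : Fin w} (hij : i ≠ j) (hi : 1 ≤ c i) (hj : 1 ≤ c j) :
    ∑ i, M' i + A ≤ (∑ i, c i) * A := by
  have e1 : ∀ f : Fin w → ℕ, ∑ l, f l = f i + f j + ∑ l ∈ (univ.erase i).erase j, f l := by
    intro f
    rw [← Finset.add_sum_erase univ f (mem_univ i),
      ← Finset.add_sum_erase (univ.erase i) f (Finset.mem_erase.2 ⟨hij.symm, mem_univ j⟩), add_assoc]
  have hcard : ((univ.erase i).erase j).card + 2 = w := by
    have h2 := Finset.card_erase_add_one (Finset.mem_erase.2 ⟨hij.symm, mem_univ j⟩ :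
      j ∈ univ.erase i)
    have h3 := Finset.card_erase_add_one (mem_univ i)
    rw [Finset.card_univ, Fintype.card_fin] at h3
    omega
  have h2 : ∑ l ∈ (univ.erase i).erase j, M' l ≤
      (∑ l ∈ (univ.erase i).erase j, c l) * A + ((univ.erase i).erase j).card := by
    rw [sum_mul, Finset.card_eq_sum_ones, ← sum_add_distrib]
    refine sum_le_sum fun l _ => ?_
    rcases Nat.eq_zero_or_pos (c l) with h | h
    · rw [h0 l h, h]
      omega
    · obtain ⟨h3, h4⟩ := h1 l h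
      rw [h3]
      omega
  obtain ⟨h3, h4⟩ := h1 i hi
  obtain ⟨h5, h6⟩ := h1 j hj
  rw [e1 M', e1 c, h3, h5, add_mul, add_mul]
  omega

/-- the alternative for the functions computed by formulas -/
def Alt (L : W →ₗ[ℝ] (V → ℝ)) (B : Finset V) (z0 : V → ℝ) (K w : ℕ) (U0 : Submodule ℝ W)
    (f : (V → ℝ) → ℝ) (c : ℕ) : Prop :=
  (c = 0 ∧ Inv B f) ∨ (1 ≤ c ∧ ∃ M, M + (2 * K + w) ≤ c * (2 * K + w) ∧
    Good L (𝓝[Sl B z0] z0) (fun z => ‖z - z0‖) K U0 f M)

theorem alt_gate {w K m : ℕ} (hm : K + 1 ≤ m) {L : W →ₗ[ℝ] (V → ℝ)} {B : Finset V}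
    {z0 : V → ℝ} {U0 : Submodule ℝ W} {T : Fin w → (V → ℝ) → ℝ} (hT : ∀ i, ContDiff ℝ m (T i))
    {c : Fin w → ℕ} (h : ∀ i, Alt L B z0 K w U0 (T i) (c i))
    {φ : (Fin w → ℝ) → ℝ} (hφ : ContDiff ℝ m φ) :
    Alt L B z0 K w U0 (fun z => φ fun i => T i z) (∑ i, c i) := by
  classical
  have hinv : ∀ i, c i = 0 → Inv B (T i) := by
    intro i hi
    rcases h i with h1 | h1
    · exact h1.2
    · exact absurd h1.1 (by omega)
  by_cases hA : ∀ i, c i = 0
  · refine Or.inl ⟨sum_eq_zero fun i _ => hA i, fun z z' hz => ?_⟩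
    show φ _ = φ _
    congr 1
    funext i
    exact hinv i (hA i) z z' hz
  push Not at hA
  obtain ⟨i0, hi0⟩ := hA
  have hpos : 1 ≤ ∑ i, c i := le_trans (by omega) (Finset.single_le_sum (fun i _ => Nat.zero_le (c i))
    (mem_univ i0))
  refine Or.inr ⟨hpos, ?_⟩
  by_cases hB : ∀ i, i ≠ i0 → c i = 0
  · rcases h i0 with h1 | ⟨-, M, hM, hg⟩
    · exact absurd h1.1 hi0
    · refine ⟨M, ?_, good_one hm hT (fun i hi => hinv i (hB i hi)) hg hφ⟩
      rwa [Finset.sum_eq_single i0 (fun i _ hi => hB i hi) fun h => absurd (mem_univ _) h]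
  push Not at hB
  obtain ⟨j, hj, hcj⟩ := hB
  have h2 : ∀ i, ∃ M M' : ℕ, (c i = 0 → M' = 1) ∧
      (1 ≤ c i → M' = M + K ∧ M + (2 * K + w) ≤ c i * (2 * K + w)) ∧
      ∃ U : Submodule ℝ W, CodLe U M' ∧
        ∀ η ∈ U0, η ∈ U → Id (𝓝[Sl B z0] z0) (fun z => ‖z - z0‖) K (del L (T i) η) := by
    intro i
    rcases h i with ⟨h1, h3⟩ | ⟨h1, M, hM, hg⟩
    · exact ⟨0, 1, fun _ => rfl, fun h4 => absurd h4 (by omega), h3.kill L U0⟩
    · exact ⟨M, M + K, fun h4 => absurd h4 (by omega), fun _ => ⟨rfl, hM⟩,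
        hg.kill (bd_norm B z0)⟩
  choose M M' hM0 hM1 hU using h2
  exact ⟨∑ i, M' i, num_gate rfl c M M' hM0 hM1 hj.symm (by omega) (by omega),
    good_many hm hT hU hφ⟩

/-- functions whose derivatives are small are good leaves -/
theorem good_leaf {m K : ℕ} (hm : 1 ≤ m) {L : W →ₗ[ℝ] (V → ℝ)} {B : Finset V} {z0 : V → ℝ}
    {U0 : Submodule ℝ W} {f : (V → ℝ) → ℝ} (hf : ContDiff ℝ m f) {μ : W →ₗ[ℝ] ℝ}
    (hd : ∀ η ∈ U0, Id (𝓝[Sl B z0] z0) (fun z => ‖z - z0‖) K fun z => del L f η z - μ η) :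
    Good L (𝓝[Sl B z0] z0) (fun z => ‖z - z0‖) K U0 f 0 := by
  have hm0 : (m : WithTop ℕ∞) ≠ 0 := by
    intro h
    have : m = 0 := by exact_mod_cast h
    omega
  refine ⟨fun z => f z - f z0, fun _ => 0, fun _ _ => 0, ⊤, μ.smulRight 1,
    Polynomial.X + Polynomial.C (f z0), small_sub (hf.differentiable hm0), Bd.const 0, codLe_top,
    fun _ _ _ => Id.zero, ?_, fun η h0 => ?_⟩
  · have h1 := Cg.refl (l := 𝓝[Sl B z0] z0) (r := fun z => ‖z - z0‖) (K := K) f
    refine h1.congr' (Eventually.of_forall fun z => ?_) (EventuallyEq.refl _ _)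
    simp only [Polynomial.eval_add, Polynomial.eval_X, Polynomial.eval_C]
    ring
  · have h1 := hd η h0
    unfold Cg
    refine h1.congr' (Eventually.of_forall fun z => ?_) (EventuallyEq.refl _ _)
    simp only [LinearMap.smulRight_apply, Polynomial.eval_smul, Polynomial.eval_one, smul_eq_mul]
    ring

theorem sum_single_le (B : Finset V) (v : V) :
    ∑ x ∈ B, (Pi.single v 1 : V → ℕ) x = if v ∈ B then 1 else 0 := by
  split_ifs with h
  · rw [Finset.sum_eq_single v (fun x _ hx => by rw [Pi.single_eq_of_ne hx]) fun h' => absurd h h',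
      Pi.single_eq_same]
  · refine sum_eq_zero fun x hx => Pi.single_eq_of_ne (fun h' : x = v => h ?_) _
    rw [← h']
    exact hx

/-- **Formulas** -/
theorem form_alt {m w K : ℕ} (hm : K + 1 ≤ m) (L : W →ₗ[ℝ] (V → ℝ)) (B : Finset V)
    (z0 : V → ℝ) (U0 : Submodule ℝ W) {O : ((V → ℝ) → ℝ) → Prop}
    (hO : ∀ f, O f → ContDiff ℝ m f ∧ ∀ η ∈ U0,
      Id (𝓝[Sl B z0] z0) (fun z => ‖z - z0‖) K (del L f η))
    {f : (V → ℝ) → ℝ} {a : V → ℕ} {u : ℕ} (h : IsForm m w O f a u) :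
    ContDiff ℝ m f ∧ Alt L B z0 K w U0 f (∑ v ∈ B, a v + u) := by
  induction h with
  | const c =>
    refine ⟨contDiff_const, Or.inl ⟨?_, fun _ _ _ => rfl⟩⟩
    simp
  | var v =>
    refine ⟨contDiff_apply ℝ ℝ v, ?_⟩
    rw [sum_single_le]
    split_ifs with hv
    · refine Or.inr ⟨by omega, 0, by omega, good_leaf (m := m) (by omega) (contDiff_apply ℝ ℝ v)
        (μ := (LinearMap.proj v).comp L) fun η _ => ?_⟩
      have h5 : Id (𝓝[Sl B z0] z0) (fun z => ‖z - z0‖) K fun _ => 0 := Id.zero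
      refine h5.congr' (Eventually.of_forall fun z => ?_) (EventuallyEq.refl _ _)
      have h6 : fderiv ℝ (fun z : V → ℝ => z v) z = ContinuousLinearMap.proj v :=
        (hasFDerivAt_apply v z).fderiv
      unfold del
      beta_reduce
      rw [h6]
      simp
    · exact Or.inl ⟨rfl, fun z z' hz => hz v hv⟩
  | old f hf =>
    refine ⟨(hO f hf).1, Or.inr ⟨by simp, 0, by simp, good_leaf (m := m) (by omega) (hO f hf).1
      (μ := 0) fun η h0 => ?_⟩⟩
    have h1 := (hO f hf).2 η h0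
    simpa using h1
  | gate φ hφ T a u _ ih =>
    refine ⟨hφ.comp (contDiff_pi.2 fun i => (ih i).1), ?_⟩
    have h1 := alt_gate hm (fun i => (ih i).1) (fun i => (ih i).2) hφ
    have e1 : ∑ v ∈ B, (∑ i, a i) v + ∑ i, u i = ∑ i, (∑ v ∈ B, a i v + u i) := by
      rw [sum_add_distrib]
      congr 1
      rw [sum_comm]
      refine sum_congr rfl fun v _ => ?_
      rw [Finset.sum_apply]
    rw [e1]
    exact h1

/-- a smooth function of functions whose derivatives are small -/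
theorem old_small {m K : ℕ} (hm : 1 ≤ m) {L : W →ₗ[ℝ] (V → ℝ)} {B : Finset V} {z0 : V → ℝ}
    {U0 : Submodule ℝ W} {fs : List ((V → ℝ) → ℝ)}
    (hfs : ∀ f ∈ fs, ContDiff ℝ m f ∧ ∀ η ∈ U0,
      Id (𝓝[Sl B z0] z0) (fun z => ‖z - z0‖) K (del L f η)) {g : (V → ℝ) → ℝ} (hg : Old m fs g) :
    ContDiff ℝ m g ∧ ∀ η ∈ U0, Id (𝓝[Sl B z0] z0) (fun z => ‖z - z0‖) K (del L g η) := by
  obtain ⟨G, hG, rfl⟩ := hg
  have hm0 : (m : WithTop ℕ∞) ≠ 0 := by
    intro h
    have : m = 0 := by exact_mod_cast h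
    omega
  have hT : ∀ i, ContDiff ℝ m (fs.get i) := fun i => (hfs _ (List.get_mem fs i)).1
  have hTd : ∀ i, Differentiable ℝ (fs.get i) := fun i => (hT i).differentiable hm0
  have hTc : Continuous fun z => fun i => fs.get i z := continuous_pi fun i => (hTd i).continuous
  refine ⟨hG.comp (contDiff_pi.2 hT), fun η h0 => ?_⟩
  have e1 : del L (fun z => G fun i => fs.get i z) η = fun z =>
      ∑ i, fderiv ℝ G (fun i => fs.get i z) (Pi.single i 1) * del L (fs.get i) η z :=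
    funext fun z => del_comp L (hG.differentiable hm0) hTd η z
  rw [e1]
  refine Id.sum fun i _ => Id.bd_mul ?_ ((hfs _ (List.get_mem fs i)).2 η h0)
  apply bd_cont
  have h1 : Continuous fun u => fderiv ℝ G u (Pi.single i (1 : ℝ)) :=
    (hG.continuous_fderiv hm0).clm_apply continuous_const
  exact h1.comp hTc

/-- **Programs** -/
theorem prog_kill {m w k : ℕ} (hm : k + 2 ≤ m) (L : W →ₗ[ℝ] (V → ℝ)) (B : Finset V)
    (z0 : V → ℝ) {fs : List ((V → ℝ) → ℝ)} {a : V → ℕ} {u : ℕ} (h : IsProg m w fs a u) :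
    ∃ U : Submodule ℝ W, Module.finrank ℝ W ≤ Module.finrank ℝ U +
        ((∑ v ∈ B, a v + u) * (2 * (k + 1) + w) + fs.length) ∧
      ∀ f ∈ fs, ContDiff ℝ m f ∧ ∀ η ∈ U,
        (fun z => fderiv ℝ f z (L η)) =O[𝓝[Sl B z0] z0] fun z => ‖z - z0‖ ^ (k + 1) := by
  have key : ∃ U : Submodule ℝ W, CodLe U ((∑ v ∈ B, a v + u) * (2 * (k + 1) + w) + fs.length) ∧
      ∀ f ∈ fs, ContDiff ℝ m f ∧ ∀ η ∈ U,
        Id (𝓝[Sl B z0] z0) (fun z => ‖z - z0‖) (k + 1) (del L f η) := by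
    induction h with
    | nil => exact ⟨⊤, codLe_top.mono (Nat.zero_le _), by simp⟩
    | @cons fs a u f b c h hf ih =>
      obtain ⟨U0, hU0, hfs⟩ := ih
      have h1 := form_alt (K := k + 1) (by omega) L B z0 U0
        (fun g hg => old_small (by omega) hfs hg) hf
      obtain ⟨U, hU, hUf⟩ : ∃ U : Submodule ℝ W,
          CodLe U ((∑ v ∈ B, b v + c) * (2 * (k + 1) + w) + 1) ∧ ∀ η ∈ U0, η ∈ U →
            Id (𝓝[Sl B z0] z0) (fun z => ‖z - z0‖) (k + 1) (del L f η) := by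
        rcases h1.2 with ⟨-, h2⟩ | ⟨-, M, hM, hg⟩
        · obtain ⟨U, hU, h3⟩ := h2.kill L (K := k + 1) (z0 := z0) U0
          exact ⟨U, hU.mono (by omega), h3⟩
        · obtain ⟨U, hU, h3⟩ := hg.kill (bd_norm B z0)
          exact ⟨U, hU.mono (by omega), h3⟩
      refine ⟨U0 ⊓ U, (hU0.inf hU).mono ?_, fun g hg => ?_⟩
      · rw [List.length_cons]
        have e1 : ∑ v ∈ B, (a + b) v = ∑ v ∈ B, a v + ∑ v ∈ B, b v := by
          rw [← sum_add_distrib]
          rfl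
        rw [e1]
        apply le_of_eq
        ring
      · rcases List.mem_cons.1 hg with rfl | hg
        · exact ⟨h1.1, fun η hη => hUf η (Submodule.mem_inf.1 hη).1 (Submodule.mem_inf.1 hη).2⟩
        · exact ⟨(hfs g hg).1, fun η hη => (hfs g hg).2 η (Submodule.mem_inf.1 hη).1⟩
  obtain ⟨U, hU, h1⟩ := key
  exact ⟨U, hU, h1⟩

end Pool.SF
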