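import Pool.Agent.SF.Defs
import Pool.Agent.Helper97.Form.BoolBlocks
import Pool.Agent.Helper71.Formula.Blocks

/-!
# SF: the count over disjoint blocks
-/

set_option autoImplicit false

namespace Pool.SF

open Finset
open Pool.Agent.Helper71.Fml Pool.Agent.Helper97.Form

/-- The sum of the block inequalities over `n (n / (2 s))` disjoint blocks. -/
theorem sum_blocks (n s K t u : ℕ) (a : Fin n × Fin n → ℕ) (hs : 1 ≤ s)
    (h : ∀ r c : Fin (2 * s) → Fin n, Function.Injective r → Function.Injective c →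
      4 ^ s ≤ (∑ v ∈ blk r c, a v + u) * K + t + 1) :
    n * (n / (2 * s)) * (4 ^ s - (u * K + t + 1)) ≤ K * ∑ v, a v := by
  classical
  refine Pool.Agent.Helper97.Boo.blocks n (2 * s) (by omega) (fun D => K * ∑ v ∈ D, a v)
    (K * ∑ v, a v) _ ?_ ?_
  · intro I _ D hD
    rw [← mul_sum]
    refine Nat.mul_le_mul_left K ?_
    rw [← sum_biUnion]
    · exact sum_le_sum_of_subset (subset_univ _)
    · intro i _ j _ hij
      rw [Function.onFun, disjoint_left]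
      intro v hi hj
      exact hij (hD i j v hi hj)
  · intro r c hr hc
    have h1 := h r c hr hc
    have h2 : (Pool.Agent.Helper97.Boo.cells r c) = blk r c := rfl
    show _ ≤ K * ∑ v ∈ Pool.Agent.Helper97.Boo.cells r c, a v
    rw [h2]
    rw [add_mul] at h1
    rw [mul_comm K]
    omega

/-- R5: the count. -/
theorem total_bound : ∃ c : ℝ, 0 < c ∧ ∀ (n m w t u : ℕ) (a : Fin n × Fin n → ℕ), 4 ≤ m → 1 ≤ w →
    2 ^ m ≤ n ^ 2 → 1 ≤ t → ((t + u : ℕ) : ℝ) ≤ 1 + c * (2 : ℝ) ^ m / ((m : ℝ) + w) →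
    ((∑ v, a v : ℕ) : ℝ) < c * (n : ℝ) ^ 2 * (2 : ℝ) ^ m / ((m : ℝ) * ((m : ℝ) + w)) →
    (∀ s : ℕ, 1 ≤ s → 12 * 2 ^ s ≤ n → 2 * s + 2 ≤ m → ∀ r c : Fin (2 * s) → Fin n,
      Function.Injective r → Function.Injective c →
      4 ^ s ≤ (∑ v ∈ blk r c, a v + u) * (2 * (2 * s + 1) + w) + t + 1) →
    t = 1 ∧ u = 0 ∧ ∀ v, a v = 0 := by
  refine ⟨1 / 20000, by norm_num, ?_⟩
  intro n m w t u a hm hw hmn ht htu hA H
  have hm' : (4 : ℝ) ≤ m := by exact_mod_cast hm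
  have hw' : (1 : ℝ) ≤ w := by exact_mod_cast hw
  have hmn' : (2 : ℝ) ^ m ≤ (n : ℝ) ^ 2 := by exact_mod_cast hmn
  have hmw : 0 < (m : ℝ) + w := by linarith
  have h2m : (0 : ℝ) < 2 ^ m := by positivity
  by_cases hn : n < 24
  · have hn' : (n : ℝ) ≤ 23 := by exact_mod_cast Nat.le_of_lt_succ hn
    have hn2 : (n : ℝ) ^ 2 ≤ 529 := by nlinarith [Nat.cast_nonneg (α := ℝ) n]
    have h1 : 1 / 20000 * (2 : ℝ) ^ m / ((m : ℝ) + w) < 1 := by
      rw [div_lt_one hmw]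
      linarith
    have h2 : ((t + u : ℕ) : ℝ) < ((2 : ℕ) : ℝ) := by push_cast at htu ⊢; linarith
    have h3 : t + u < 2 := by exact_mod_cast h2
    have h4 : 1 / 20000 * (n : ℝ) ^ 2 * (2 : ℝ) ^ m / ((m : ℝ) * ((m : ℝ) + w)) < 1 := by
      rw [div_lt_one (by positivity)]
      have e1 : (n : ℝ) ^ 2 * (2 : ℝ) ^ m ≤ 529 * 529 :=
        mul_le_mul hn2 (hmn'.trans hn2) h2m.le (by norm_num)
      have e2 : (4 : ℝ) * 5 ≤ (m : ℝ) * ((m : ℝ) + w) :=
        mul_le_mul hm' (by linarith) (by norm_num) (by positivity)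
      linarith
    have h5 : ((∑ v, a v : ℕ) : ℝ) < ((1 : ℕ) : ℝ) := by push_cast at hA ⊢; linarith
    have h6 : ∑ v, a v < 1 := by exact_mod_cast h5
    have h7 : ∑ v, a v = 0 := by omega
    refine ⟨by omega, by omega, fun v => ?_⟩
    exact (sum_eq_zero_iff.mp h7) v (mem_univ v)
  · exfalso
    push Not at hn
    obtain ⟨s, hs1, hs2, hs3, hs4⟩ : ∃ s : ℕ, 1 ≤ s ∧ 12 * 2 ^ s ≤ n ∧ 2 * s + 2 ≤ m ∧
        2 ^ m ≤ 512 * 4 ^ s := by
      by_cases h9 : m ≤ 9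
      · refine ⟨1, le_refl _, by omega, by omega, ?_⟩
        calc 2 ^ m ≤ 2 ^ 9 := Nat.pow_le_pow_right (by norm_num) h9
          _ ≤ 512 * 4 ^ 1 := by norm_num
      · push Not at h9
        refine ⟨(m - 8) / 2, by omega, ?_, by omega, ?_⟩
        · have e1 : 2 ^ ((m - 8) / 2) * 16 = 2 ^ ((m - 8) / 2 + 4) := by
            rw [pow_add]; norm_num
          have e2 : (2 ^ ((m - 8) / 2 + 4)) ^ 2 ≤ n ^ 2 := by
            rw [← pow_mul]
            refine le_trans (Nat.pow_le_pow_right (by norm_num) ?_) hmn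
            omega
          have e3 : 2 ^ ((m - 8) / 2 + 4) ≤ n := by
            by_contra hcon
            push Not at hcon
            have := Nat.pow_lt_pow_left hcon (n := 2) (by norm_num)
            omega
          omega
        · have e1 : (4 : ℕ) ^ ((m - 8) / 2) = 2 ^ (2 * ((m - 8) / 2)) := by
            rw [pow_mul]; norm_num
          have e2 : 512 * 2 ^ (2 * ((m - 8) / 2)) = 2 ^ (9 + 2 * ((m - 8) / 2)) := by
            rw [pow_add]; norm_num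
          rw [e1, e2]
          exact Nat.pow_le_pow_right (by norm_num) (by omega)
    have hB := sum_blocks n s (2 * (2 * s + 1) + w) t u a hs1 (H s hs1 hs2 hs3)
    set A : ℕ := ∑ v, a v with hAdef
    set K : ℕ := 2 * (2 * s + 1) + w with hK
    have hKr : (K : ℝ) ≤ 2 * ((m : ℝ) + w) := by
      have : K ≤ 2 * (m + w) := by omega
      exact_mod_cast this
    have hs' : (1 : ℝ) ≤ s := by exact_mod_cast hs1
    have hsm : 2 * (s : ℝ) ≤ m := by
      have : 2 * s ≤ m := by omega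
      exact_mod_cast this
    have h4s : (2 : ℝ) ^ m ≤ 512 * 4 ^ s := by exact_mod_cast hs4
    have h4s' : (4 : ℝ) ≤ 4 ^ s := by
      calc (4 : ℝ) = 4 ^ 1 := by norm_num
        _ ≤ 4 ^ s := pow_le_pow_right₀ (by norm_num) hs1
    have hn' : (24 : ℝ) ≤ n := by exact_mod_cast hn
    -- the correction terms
    have htr : (1 : ℝ) ≤ t := by exact_mod_cast ht
    have hq : 1 / 20000 * (2 : ℝ) ^ m / ((m : ℝ) + w) ≤ 1 / 20000 * (2 : ℝ) ^ m := by
      refine div_le_self (by positivity) ?_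
      linarith
    have hq0 : 0 ≤ 1 / 20000 * (2 : ℝ) ^ m / ((m : ℝ) + w) := by positivity
    push_cast at htu
    have hur : (u : ℝ) ≤ 1 / 20000 * (2 : ℝ) ^ m / ((m : ℝ) + w) := by linarith
    have hu0 : (0 : ℝ) ≤ u := Nat.cast_nonneg u
    have huK : (u : ℝ) * K ≤ 1 / 10000 * (2 : ℝ) ^ m := by
      calc (u : ℝ) * K ≤ (1 / 20000 * (2 : ℝ) ^ m / ((m : ℝ) + w)) * (2 * ((m : ℝ) + w)) :=
            mul_le_mul hur hKr (Nat.cast_nonneg K) hq0
        _ = 1 / 10000 * (2 : ℝ) ^ m := by field_simp; norm_num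
    have hcor : (u : ℝ) * K + t + 1 ≤ 3 / 4 * 4 ^ s := by
      have e1 : (t : ℝ) ≤ 1 + 1 / 20000 * (2 : ℝ) ^ m := by linarith
      linarith
    have hBr : (n : ℝ) * ((n / (2 * s) : ℕ) : ℝ) * (1 / 4 * 4 ^ s) ≤ K * A := by
      have e1 : u * K + t + 1 ≤ 4 ^ s := by
        have : ((u * K + t + 1 : ℕ) : ℝ) ≤ ((4 ^ s : ℕ) : ℝ) := by push_cast; linarith
        exact_mod_cast this
      have e2 : ((4 ^ s - (u * K + t + 1) : ℕ) : ℝ) = 4 ^ s - (u * K + t + 1) := by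
        rw [Nat.cast_sub e1]; push_cast; ring
      have e3 : (n : ℝ) * ((n / (2 * s) : ℕ) : ℝ) * ((4 ^ s - (u * K + t + 1) : ℕ) : ℝ) ≤ K * A := by
        exact_mod_cast hB
      rw [e2] at e3
      refine le_trans (mul_le_mul_of_nonneg_left ?_ (by positivity)) e3
      linarith
    have hdiv : (n : ℝ) / (4 * s) ≤ ((n / (2 * s) : ℕ) : ℝ) := by
      have e1 : 2 * s ≤ n := by
        have : s < 2 ^ s := Nat.lt_two_pow_self
        omega
      have e2 : n < 2 * s * (n / (2 * s) + 1) := Nat.lt_mul_div_succ n (by omega)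
      have e3 : 1 ≤ n / (2 * s) := Nat.div_pos e1 (by omega)
      have e4 : n ≤ n / (2 * s) * (4 * s) := by
        have : 2 * s * (n / (2 * s) + 1) ≤ n / (2 * s) * (4 * s) := by nlinarith
        omega
      rw [div_le_iff₀ (by positivity)]
      exact_mod_cast e4
    have hKA : (K : ℝ) * A < 2 * (1 / 20000 * (n : ℝ) ^ 2 * (2 : ℝ) ^ m / m) := by
      have hK0 : (0 : ℝ) < K := by
        have : 0 < K := by omega
        exact_mod_cast this
      calc (K : ℝ) * A < K * (1 / 20000 * (n : ℝ) ^ 2 * (2 : ℝ) ^ m / ((m : ℝ) * ((m : ℝ) + w))) :=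
            mul_lt_mul_of_pos_left hA hK0
        _ ≤ 2 * ((m : ℝ) + w) * (1 / 20000 * (n : ℝ) ^ 2 * (2 : ℝ) ^ m /
              ((m : ℝ) * ((m : ℝ) + w))) := mul_le_mul_of_nonneg_right hKr (by positivity)
        _ = 2 * (1 / 20000 * (n : ℝ) ^ 2 * (2 : ℝ) ^ m / m) := by
            field_simp
    have hlow : (n : ℝ) ^ 2 * (2 : ℝ) ^ m / (4096 * m) ≤
        (n : ℝ) * ((n / (2 * s) : ℕ) : ℝ) * (1 / 4 * 4 ^ s) := by
      calc (n : ℝ) ^ 2 * (2 : ℝ) ^ m / (4096 * m) ≤ (n : ℝ) ^ 2 * (512 * 4 ^ s) / (4096 * (2 * s)) := by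
            gcongr
        _ = (n : ℝ) * ((n : ℝ) / (4 * s)) * (1 / 4 * 4 ^ s) := by field_simp; norm_num
        _ ≤ _ := by gcongr
    have hfin : (n : ℝ) ^ 2 * (2 : ℝ) ^ m / (4096 * m) <
        2 * (1 / 20000 * (n : ℝ) ^ 2 * (2 : ℝ) ^ m / m) := by linarith
    have hm0 : (0 : ℝ) < m := by linarith
    have e1 : (n : ℝ) ^ 2 * (2 : ℝ) ^ m / (4096 * m) = 1 / 4096 * ((n : ℝ) ^ 2 * (2 : ℝ) ^ m / m) := by
      field_simp
    have e2 : 2 * (1 / 20000 * (n : ℝ) ^ 2 * (2 : ℝ) ^ m / m) =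
        1 / 10000 * ((n : ℝ) ^ 2 * (2 : ℝ) ^ m / m) := by ring
    rw [e1, e2] at hfin
    have e3 : (0 : ℝ) ≤ (n : ℝ) ^ 2 * (2 : ℝ) ^ m / m := by positivity
    linarith

end Pool.SF
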