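import Pool.Agent.SF.Block
import Pool.Agent.SF.Gen
import Pool.Agent.SF.Num

/-!
# SF: small programs with smooth gates are equal to the permanent only on a closed set of measure
zero
-/

set_option autoImplicit false
set_option linter.unusedSectionVars false

namespace Pool.SF

open Finset Filter Topology Asymptotics MeasureTheory MvPolynomial
open Pool.Agent.Helper71.Fml Pool.Agent.Helper97.Form Pool.XN

/-- the permanent is equal to a constant only on a set of measure zero -/
theorem perm_const (n : ℕ) (hn : 1 ≤ n) (c : ℝ) :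
    volume {z : Fin n × Fin n → ℝ | c = permF n z} = 0 := by
  have : NeZero n := ⟨by omega⟩
  have hq : (Pool.CDep.permP n ℝ - C c : MvPolynomial (Fin n × Fin n) ℝ) ≠ 0 := by
    intro h
    have h1 : ∀ z : Fin n × Fin n → ℝ, permF n z = c := by
      intro z
      have h2 := congrArg (eval z) h
      rw [map_sub, eval_permP, eval_C, map_zero] at h2
      linarith
    have h2 := h1 fun _ => 0
    have h3 := h1 fun p => if p.1 = p.2 then 1 else 0
    have e2 : permF n (fun _ : Fin n × Fin n => (0 : ℝ)) = 0 := by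
      unfold permF
      have : (Matrix.of fun a b : Fin n => (0 : ℝ)) = 0 := rfl
      rw [this]
      exact Matrix.permanent_zero
    have e3 : permF n (fun p : Fin n × Fin n => if p.1 = p.2 then (1 : ℝ) else 0) = 1 := by
      unfold permF
      have : (Matrix.of fun a b : Fin n => if (a, b).1 = (a, b).2 then (1 : ℝ) else 0) = 1 := by
        ext i j
        rw [Matrix.one_apply]
        rfl
      rw [this, Matrix.permanent_one]
    rw [e2] at h2
    rw [e3] at h3
    rw [← h2] at h3
    exact one_ne_zero h3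
  rw [measure_eq_zero_iff_ae_notMem]
  filter_upwards [ae_eval_ne_zero _ hq] with z hz hz'
  apply hz
  rw [map_sub, eval_permP, eval_C]
  have h4 : c = permF n z := hz'
  rw [h4, sub_self]

/-- functions without leaves are constant -/
theorem form_const {V : Type} [Fintype V] [DecidableEq V] {m w : ℕ} (hm : 1 ≤ m)
    {O : ((V → ℝ) → ℝ) → Prop} (hO : ∀ f, O f → ContDiff ℝ m f ∧ ∃ c, f = fun _ => c)
    {f : (V → ℝ) → ℝ} {a : V → ℕ} (ha : ∀ v, a v = 0) (h : IsForm m w O f a 0) :
    ∀ z z', f z = f z' := by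
  have h1 := (form_alt (W := ℝ) (K := 0) (by omega) 0 univ 0 ⊤ (fun g hg => ⟨(hO g hg).1,
    fun η _ => by
      obtain ⟨-, c, rfl⟩ := hO g hg
      unfold del
      simp only [LinearMap.zero_apply, map_zero]
      exact Id.zero⟩) h).2
  rw [sum_eq_zero fun v _ => ha v] at h1
  rcases h1 with ⟨-, h2⟩ | ⟨h2, -⟩
  · exact fun z z' => h2 z z' fun v hv => absurd (mem_univ v) hv
  · exact absurd h2 (by omega)

theorem null_prog : ∃ c : ℝ, 0 < c ∧ ∀ (n m w : ℕ) (fs : List ((Fin n × Fin n → ℝ) → ℝ))
    (a : Fin n × Fin n → ℕ) (u : ℕ), 4 ≤ m → 1 ≤ w → 2 ^ m ≤ n ^ 2 → IsProg m w fs a u →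
    ((fs.length + u : ℕ) : ℝ) ≤ 1 + c * (2 : ℝ) ^ m / ((m : ℝ) + w) →
    ((∑ v, a v : ℕ) : ℝ) < c * (n : ℝ) ^ 2 * (2 : ℝ) ^ m / ((m : ℝ) * ((m : ℝ) + w)) →
    ∀ f ∈ fs, IsClosed {z | f z = permF n z} ∧ volume {z | f z = permF n z} = 0 := by
  obtain ⟨c, hc, hT⟩ := total_bound
  refine ⟨c, hc, fun n m w fs a u hm hw hn h hu ha f hf => ?_⟩
  have hcd : ContDiff ℝ m f := by
    obtain ⟨U, -, h1⟩ := prog_kill (k := 0) (by omega) (0 : ℝ →ₗ[ℝ] (Fin n × Fin n → ℝ)) ∅ 0 h
    exact (h1 f hf).1
  refine ⟨isClosed_eq hcd.continuous (contDiff_permF m n).continuous, ?_⟩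
  by_contra hpos
  have hlen : 1 ≤ fs.length := List.length_pos_of_mem hf
  have hn1 : 1 ≤ n := by
    rcases Nat.eq_zero_or_pos n with rfl | h0
    · have h1 : 0 < 2 ^ m := pow_pos (by norm_num) m
      rw [zero_pow (by norm_num)] at hn
      omega
    · exact h0
  obtain ⟨h1, h2, h3⟩ := hT n m w fs.length u a hm hw hn hlen hu ha fun s hs1 hs hsm r c hr hc => by
    classical
    obtain ⟨p, hp⟩ := perm_gen n s hs r c hr hc
    have h4 := block_of (k := 2 * s) hsm h hf (contDiff_permF m n) hpos (blk r c) p hp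
    have h5 := Pool.FV.card_pos s
    omega
  -- one formula without leaves
  cases h with
  | nil => exact absurd hf List.not_mem_nil
  | @cons fs a u g b c' h' hg =>
    have h4 : fs = [] := by
      rw [List.length_cons] at h1
      exact List.length_eq_zero_iff.1 (by omega)
    subst h4
    have h5 : f = g := by simpa using hf
    subst h5
    obtain rfl : c' = 0 := by omega
    have hb : ∀ v, b v = 0 := by
      intro v
      have := h3 v
      rw [Pi.add_apply] at this
      omega
    have hconst := form_const (m := m) (by omega) (O := Old m []) (fun F hF => by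
      obtain ⟨G, hG, rfl⟩ := hF
      have e1 : (fun z : Fin n × Fin n → ℝ => G fun i => ([] : List ((Fin n × Fin n → ℝ) → ℝ)).get i z)
          = fun _ => G fun i => i.elim0 := by
        funext z
        congr 1
        funext i
        exact i.elim0
      rw [e1]
      exact ⟨contDiff_const, _, rfl⟩) hb hg
    apply hpos
    have h6 := perm_const n hn1 (f 0)
    refine measure_mono_null ?_ h6
    intro z hz
    exact (hconst 0 z).trans hz

end Pool.SF
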